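import Pool.Agent.JZ12.Defs2
import Pool.Agent.Y772.HI.Cmp

/-!
# Comparison of the zeros with real part at least `1/2` of an L-function and of its translate
-/

set_option autoImplicit false

open Complex Filter Topology Set MeasureTheory

namespace Pool.Agent.JZ12.HD

open H370 (zset mult NN Ns Nd)
open W388.LV
open Pool.Agent.Y655.HC (zset_shift add_inj NN_shift Ns_shift cmp)

lemma Nh_shift (F : ℂ → ℂ) (W T1 T2 : ℝ) :
    Nh F T1 T2 = Nh (fun z => F (z + W * I)) (T1 - W) (T2 - W) := by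
  unfold Nh
  rw [← (add_inj (W * I)).injOn.ncard_image (s := {s : ℂ | s ∈ zset (fun z => F (z + W * I))
    (T1 - W) (T2 - W) ∧ 1 / 2 ≤ s.re})]
  congr 1
  ext s
  constructor
  · rintro ⟨h1, h2⟩
    rw [zset_shift F W T1 T2] at h1
    obtain ⟨z, hz, rfl⟩ := h1
    refine ⟨z, ⟨hz, ?_⟩, rfl⟩
    simpa using h2
  · rintro ⟨z, ⟨h1, h2⟩, rfl⟩
    refine ⟨?_, ?_⟩
    · rw [zset_shift F W T1 T2]
      exact ⟨z, h1, rfl⟩
    · simpa using h2

lemma cmp_Nh {d A Q : ℝ} {G : ℂ → ℂ} {a : ℕ → ℂ} (hA : 1 ≤ A) (hQ : 1 ≤ Q)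
    (hG : GoodG d A Q G a) {T W : ℝ} (hW : 0 ≤ W) (hT : W + 4 ≤ T) :
    Nh G T (2 * T) ≤ Nh G (T - W) (2 * T - W) + NN G (2 * T - W - 1) (2 * T) := by
  have hfin := zset_finite_D hA hQ hG (2 * T - W - 1) (2 * T) (by linarith)
  have hfin2 := zset_finite_D hA hQ hG (T - W) (2 * T - W) (by linarith)
  have h1 := LocD.card_le_NN_D hA hQ hG (2 * T - W - 1) (2 * T) (by linarith)
  have h2 : (zset G (2 * T - W - 1) (2 * T)).ncard = hfin.toFinset.card :=
    Set.ncard_eq_toFinset_card _ hfin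
  unfold Nh
  have hsub : {s : ℂ | s ∈ zset G T (2 * T) ∧ 1 / 2 ≤ s.re} ⊆
      {s : ℂ | s ∈ zset G (T - W) (2 * T - W) ∧ 1 / 2 ≤ s.re} ∪
        zset G (2 * T - W - 1) (2 * T) := by
    rintro s ⟨⟨a1, a2, a3, a4, a5⟩, b⟩
    by_cases h : s.im ≤ 2 * T - W
    · exact Or.inl ⟨⟨a1, a2, by linarith, h, a5⟩, b⟩
    · push Not at h
      exact Or.inr ⟨a1, a2, by linarith, a4, a5⟩
  have hf : ({s : ℂ | s ∈ zset G (T - W) (2 * T - W) ∧ 1 / 2 ≤ s.re} ∪
        zset G (2 * T - W - 1) (2 * T)).Finite :=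
    (hfin2.subset fun s hs => hs.1).union hfin
  have h3 := Set.ncard_le_ncard hsub hf
  have h4 := Set.ncard_union_le {s : ℂ | s ∈ zset G (T - W) (2 * T - W) ∧ 1 / 2 ≤ s.re}
    (zset G (2 * T - W - 1) (2 * T))
  omega

/-- the zeros of `F` and of `z ↦ F (z + i W)` in `(T, 2T]` -/
theorem cmp_main (d A W : ℝ) (hd : 1 ≤ d) (hA : 1 ≤ A) (hW : 0 ≤ W) (ε : ℝ) (hε : 0 < ε) :
    ∃ X0 : ℝ, 1 ≤ X0 ∧ ∀ (X Q T : ℝ) (F : ℂ → ℂ) (a : ℕ → ℂ), X0 ≤ X → X ≤ Q → Q ≤ X ^ 3 →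
      (Real.log X) ^ 2 ≤ T → T ≤ X → GoodG d A Q (fun z => F (z + W * I)) a →
      (NN F T (2 * T) : ℝ) ≤ (1 + ε) * NN (fun z => F (z + W * I)) T (2 * T) ∧
      (Nh (fun z => F (z + W * I)) T (2 * T) : ℝ) ≤
        Nh F T (2 * T) + ε * NN (fun z => F (z + W * I)) T (2 * T) := by
  obtain ⟨C3, hC3, hlong⟩ := zcount_long_D d A hd hA
  obtain ⟨C2, hC2, hlow⟩ := N_lower_D d A hd hA
  have hpi := Real.pi_pos
  obtain ⟨L0, hL0⟩ : ∃ L0 : ℝ, L0 = 12 + W + 2 * Real.pi * (1 + 7 * C2) +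
    ε⁻¹ * (5 * C3 * (W + 1)) := ⟨_, rfl⟩
  have hL0a : 12 + W ≤ L0 := by
    have : 0 ≤ 2 * Real.pi * (1 + 7 * C2) + ε⁻¹ * (5 * C3 * (W + 1)) := by positivity
    rw [hL0]; linarith
  have hL0b : 2 * Real.pi * (1 + 7 * C2) ≤ L0 := by
    have : 0 ≤ 12 + W + ε⁻¹ * (5 * C3 * (W + 1)) := by positivity
    rw [hL0]; linarith
  have hL0c : ε⁻¹ * (5 * C3 * (W + 1)) ≤ L0 := by
    have : 0 ≤ 12 + W + 2 * Real.pi * (1 + 7 * C2) := by positivity
    rw [hL0]; linarith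
  refine ⟨max 1 (Real.exp L0), le_max_left _ _, ?_⟩
  intro X Q T F a hX hXQ hQX hT1 hT2 hg
  have hX1 : (1 : ℝ) ≤ X := (le_max_left _ _).trans hX
  have hXe : Real.exp L0 ≤ X := (le_max_right _ _).trans hX
  have hXpos : (0 : ℝ) < X := by linarith
  have hQ1 : 1 ≤ Q := hX1.trans hXQ
  have hQpos : 0 < Q := by linarith
  obtain ⟨L, hL⟩ : ∃ L : ℝ, L = Real.log X := ⟨_, rfl⟩
  have hLL0 : L0 ≤ L := by
    rw [hL, Real.le_log_iff_exp_le hXpos]; exact hXe
  rw [← hL] at hT1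
  have hL12 : 12 + W ≤ L := hL0a.trans hLL0
  have hLpos : 0 < L := by linarith
  have hLT : L ≤ T := by
    refine le_trans ?_ hT1
    rw [sq]
    exact le_mul_of_one_le_left hLpos.le (by linarith)
  have hTpos : 0 < T := by linarith
  have hTe : T ≤ Real.exp (1 * L) := by
    rw [one_mul, hL, Real.exp_log hXpos]; exact hT2
  obtain ⟨p1, p2, -, -, -, p6⟩ := H385.param_ok 1 L T 1 one_pos le_rfl (by linarith)
    (by linarith) hT1 hTe
  have hlogT : Real.log T ≤ L := by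
    rw [hL]; exact Real.log_le_log hTpos hT2
  have hlogT0 : 0 ≤ Real.log T := Real.log_nonneg (by linarith)
  have hlogQ1 : L ≤ Real.log Q := by
    rw [hL]; exact Real.log_le_log hXpos hXQ
  have hlogQ2 : Real.log Q ≤ 3 * L := by
    have := Real.log_le_log hQpos hQX
    rwa [Real.log_pow, ← hL] at this
  have hlogQT : Real.log (Q * T) = Real.log Q + Real.log T := Real.log_mul hQpos.ne' hTpos.ne'
  have hlog2 : Real.log 2 ≤ 1 := by linarith [Real.log_two_lt_d9]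
  have hlogQ2T : Real.log (Q * (2 * T)) ≤ 5 * L := by
    rw [Real.log_mul hQpos.ne' (by positivity), Real.log_mul two_ne_zero hTpos.ne']
    linarith
  obtain ⟨G, hG⟩ : ∃ G : ℂ → ℂ, G = fun z => F (z + W * I) := ⟨_, rfl⟩
  rw [← hG] at hg ⊢
  obtain ⟨c1, -⟩ := cmp hA hQ1 hg hW (show W + 4 ≤ T by linarith)
  have c3 := cmp_Nh hA hQ1 hg hW (show W + 4 ≤ T by linarith)
  -- the lower bound
  have hlowT : T ≤ (NN G T (2 * T) : ℝ) := by
    have hl := hlow Q G a hQ1 hg T L p1 p2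
    refine le_trans ?_ hl
    rw [hlogQT]
    obtain ⟨M, hM⟩ : ∃ M : ℝ, M = Real.log Q + Real.log T := ⟨_, rfl⟩
    rw [← hM]
    have hM1 : L ≤ M := by linarith
    have hM2 : M ≤ 4 * L := by linarith
    have hM0 : 0 ≤ M := by linarith
    have a1 : T / (2 * Real.pi) * L ≤ T / (2 * Real.pi) * (d * M) := by
      refine mul_le_mul_of_nonneg_left ?_ (by positivity)
      nlinarith
    have a2 : L * M ≤ 4 * T := by
      have : L * M ≤ L * (4 * L) := mul_le_mul_of_nonneg_left hM2 hLpos.le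
      linarith [show L * (4 * L) = 4 * L ^ 2 by ring]
    have a3 : T * M ^ 2 * Real.exp (-L ^ 2 / 2) ≤ 2 * T := by
      have b1 : M ^ 2 ≤ (4 * L) ^ 2 := pow_le_pow_left₀ hM0 hM2 2
      have b2 : M ^ 2 * Real.exp (-L ^ 2 / 2) ≤ 2 := by
        refine le_trans (mul_le_mul_of_nonneg_right b1 (Real.exp_pos _).le) ?_
        have b3 : (4 * L) ^ 2 * Real.exp (-L ^ 2 / 2) =
          16 / 9 * (9 * L ^ 2 * Real.exp (-L ^ 2 / 2)) := by ring
        rw [b3]
        linarith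
      calc _ = T * (M ^ 2 * Real.exp (-L ^ 2 / 2)) := by ring
        _ ≤ T * 2 := mul_le_mul_of_nonneg_left b2 hTpos.le
        _ = 2 * T := by ring
    have a4 : C2 * (T + L * M + T * M ^ 2 * Real.exp (-L ^ 2 / 2)) ≤ C2 * (7 * T) :=
      mul_le_mul_of_nonneg_left (by linarith) hC2.le
    have a5 : T * (1 + 7 * C2) ≤ T / (2 * Real.pi) * L := by
      have q1 : 1 + 7 * C2 ≤ L / (2 * Real.pi) := by
        rw [le_div_iff₀ (by positivity)]
        linarith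
      calc T * (1 + 7 * C2) ≤ T * (L / (2 * Real.pi)) := mul_le_mul_of_nonneg_left q1 hTpos.le
        _ = _ := by ring
    linarith
  obtain ⟨E, hE⟩ : ∃ E : ℝ, E = 5 * C3 * (W + 1) * L := ⟨_, rfl⟩
  have hEε : E ≤ ε * NN G T (2 * T) := by
    have h1 : E ≤ ε * T := by
      have h2 : 5 * C3 * (W + 1) ≤ ε * L := by
        have := mul_le_mul_of_nonneg_left (hL0c.trans hLL0) hε.le
        rwa [← mul_assoc, mul_inv_cancel₀ hε.ne', one_mul] at this
      have h3 : 5 * C3 * (W + 1) * L ≤ ε * L * L := mul_le_mul_of_nonneg_right h2 hLpos.le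
      have h4 : ε * L * L ≤ ε * T := by
        have : ε * L * L = ε * L ^ 2 := by ring
        rw [this]
        exact mul_le_mul_of_nonneg_left hT1 hε.le
      rw [hE]
      linarith
    exact h1.trans (mul_le_mul_of_nonneg_left hlowT hε.le)
  have hs1 : (NN G (T - W - 1) T : ℝ) ≤ E := by
    have h2 := hlong Q G a hQ1 hg (T - W - 1) T (by linarith) (by linarith)
    have e : T - (T - W - 1) = W + 1 := by ring
    rw [e, hlogQT] at h2
    refine h2.trans ?_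
    rw [hE]
    have h3 : C3 * (W + 1) * (Real.log Q + Real.log T) ≤ C3 * (W + 1) * (5 * L) :=
      mul_le_mul_of_nonneg_left (by linarith) (by positivity)
    linarith
  have hs2 : (NN G (2 * T - W - 1) (2 * T) : ℝ) ≤ E := by
    have h2 := hlong Q G a hQ1 hg (2 * T - W - 1) (2 * T) (by linarith) (by linarith)
    have e : 2 * T - (2 * T - W - 1) = W + 1 := by ring
    rw [e] at h2
    refine h2.trans ?_
    rw [hE]
    have h3 : C3 * (W + 1) * Real.log (Q * (2 * T)) ≤ C3 * (W + 1) * (5 * L) :=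
      mul_le_mul_of_nonneg_left hlogQ2T (by positivity)
    linarith
  have r1 : (NN G (T - W) (2 * T - W) : ℝ) ≤ NN G (T - W - 1) T + NN G T (2 * T) := by
    exact_mod_cast c1
  have r3 : (Nh G T (2 * T) : ℝ) ≤ Nh G (T - W) (2 * T - W) + NN G (2 * T - W - 1) (2 * T) := by
    exact_mod_cast c3
  have s1 := NN_shift F W T (2 * T)
  have s3 := Nh_shift F W T (2 * T)
  rw [← hG] at s1 s3
  rw [s1, s3]
  refine ⟨by linarith, by linarith⟩

end Pool.Agent.JZ12.HD
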