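import Pool.Agent.JZ12.CoreXh
import Pool.Agent.JZ12.PerXh
import Pool.Agent.JZ12.Num
import Pool.Agent.W388.TW.Defs
import Pool.Agent.H385R2.PrimSetM
import Pool.Agent.H385R2.Win

/-!
# The average multiplicity of the zeros of one L-function of degree `m`
-/

set_option autoImplicit false
set_option maxHeartbeats 4000000

open Complex Filter Topology Set MeasureTheory
open H370 (zset mult NN Nd Ns GoodL)
open H385
open W388 (GoodE TwE SelE)

namespace Pool.Agent.JZ12.HD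

/-- the family theorem for the distinct zeros with real part at least `1/2`, one L-function -/
theorem finh1 (hx : StCoreXh) (hm : W388.StMean) (m : ℝ) (hd : 1 ≤ m) (A : ℝ) (hA : 1 ≤ A)
    (M : ℕ) (hM : Squarefree M) (c : ℕ → ℂ) (F : (q : ℕ) → DirichletCharacter ℂ q → ℂ → ℂ)
    (hF : TwE m A M c F) (hS : SelE c) (γ κ : ℝ) (h0 : 0 < γ) (hπ : γ < Real.pi)
    (hκ : m / 2 * Rw γ 0 + 4 / m * (∫ α in (0 : ℝ)..1, α * Rw γ α) < κ) :
    ∃ K η X0 : ℝ, 1 ≤ K ∧ 0 < η ∧ 1 ≤ X0 ∧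
    ∀ (X Y : ℕ) (T : ℝ), X0 ≤ X → K * X ≤ Y → (Y : ℝ) ≤ (X : ℝ) ^ (1 + η) →
      (Real.log X) ^ 2 ≤ T → T ≤ (X : ℝ) ^ η →
      primFamM M X Y (fun q χ => (NN (F q χ) T (2 * T) : ℝ)) ≤
        κ * primFamM M X Y (fun q χ => (Nh (F q χ) T (2 * T) : ℝ)) := by
  have hd0 : (0 : ℝ) < m := by linarith
  set R0 : ℝ := Rw γ 0 with hR0
  have hR0n : 0 ≤ R0 := Rw_nonneg γ h0 hπ 0
  set J : ℝ := ∫ α in (0 : ℝ)..1, α * Rw γ α with hJ
  have hJn : 0 ≤ J := intervalIntegral.integral_nonneg zero_le_one (fun α hα =>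
    mul_nonneg hα.1 (Rw_nonneg γ h0 hπ α))
  have hk0 : 0 ≤ m / 2 * R0 + 4 / m * J := by positivity
  set κ1 : ℝ := (m / 2 * R0 + 4 / m * J + κ) / 2 with hκ1
  have hκ11 : m / 2 * R0 + 4 / m * J < κ1 := by rw [hκ1]; linarith
  have hκ12 : κ1 < κ := by rw [hκ1]; linarith
  have hκ10 : 0 < κ1 := by linarith
  set e : ℝ := κ1 - (m / 2 * R0 + 4 / m * J) with he
  have he0 : 0 < e := by rw [he]; linarith
  -- choose β
  set s : ℝ := min (1 / 2) (e / (m * R0 + 1)) with hs'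
  have hs0 : 0 < s := by positivity
  have hs1 : s ≤ 1 / 2 := min_le_left _ _
  have hs2 : m * R0 * s ≤ e := by
    have h1 : s ≤ e / (m * R0 + 1) := min_le_right _ _
    calc m * R0 * s ≤ m * R0 * (e / (m * R0 + 1)) := mul_le_mul_of_nonneg_left h1 (by positivity)
      _ = e * (m * R0 / (m * R0 + 1)) := by ring
      _ ≤ e * 1 := by
        refine mul_le_mul_of_nonneg_left ?_ he0.le
        rw [div_le_one (by positivity)]; linarith
      _ = e := mul_one e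
  set β : ℝ := 2 - s with hβ
  have hβ1 : 1 < β := by rw [hβ]; linarith
  have hβ2 : β < 2 := by rw [hβ]; linarith
  have hβ0 : 0 < β := by linarith
  have e2 : m * R0 / β ≤ m / 2 * R0 + e / 2 := by
    have : m * R0 / β = m / 2 * R0 + m * R0 * s / (2 * β) := by
      rw [hβ]
      have : (2 - s) ≠ 0 := by linarith
      field_simp
      ring
    rw [this]
    have h3 : m * R0 * s / (2 * β) ≤ e / 2 := by
      rw [div_le_div_iff₀ (by positivity) (by norm_num)]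
      nlinarith [mul_nonneg (mul_nonneg hd0.le hR0n) hs0.le]
    linarith
  have hcp : 0 ≤ 2 * β * J := by positivity
  have hmean : HYM M c γ β (2 * β * J) := hm M hM c hS γ β h0 hπ hβ0 hβ2
  obtain ⟨K', η', X0', hK', hη', hX0', h'⟩ := hx κ1 hκ10 m A hd hA M c F hF γ β _ h0 hπ hβ0 hcp
    hR0n hmean (e / 2) (by positivity)
  refine ⟨K', η', X0', hK', hη', hX0', ?_⟩
  intro X Y T a1 a2 a3 a4 a5
  have b3 := h' X Y T a1 a2 a3 a4 a5
  have hN : 0 ≤ primFamM M X Y (fun q χ => (NN (F q χ) T (2 * T) : ℝ)) :=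
    primFamM_nonneg _ _ _ _ (fun _ _ => Nat.cast_nonneg _)
  have hD : 0 ≤ primFamM M X Y (fun q χ => (Nh (F q χ) T (2 * T) : ℝ)) :=
    primFamM_nonneg _ _ _ _ (fun _ _ => Nat.cast_nonneg _)
  have hJ2 : 2 * β * J / m ≤ 4 / m * J := by
    have h1 : β * J ≤ 2 * J := mul_le_mul_of_nonneg_right hβ2.le hJn
    calc 2 * β * J / m = 2 * (β * J) / m := by ring
      _ ≤ 2 * (2 * J) / m := by gcongr
      _ = 4 / m * J := by ring
  have hcc2 : m * R0 / β + 2 * β * J / m + e / 2 ≤ κ1 := by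
    have : m / 2 * R0 + 4 / m * J + e = κ1 := by rw [he]; ring
    linarith
  have hcc' := mul_le_mul_of_nonneg_right hcc2 hN
  have hcc3 := mul_le_mul_of_nonneg_right hκ12.le hN
  have l3 := primFamM_lin M X Y (2 * κ1) (κ1 ^ 2) (fun q χ => (NN (F q χ) T (2 * T) : ℝ))
    (fun q χ => (Nh (F q χ) T (2 * T) : ℝ))
  rw [l3] at b3
  have q1 : κ1 * primFamM M X Y (fun q χ => (NN (F q χ) T (2 * T) : ℝ)) ≤
      κ1 * (κ1 * primFamM M X Y (fun q χ => (Nh (F q χ) T (2 * T) : ℝ))) := by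
    have := b3.trans hcc'
    nlinarith
  have q2 := le_of_mul_le_mul_left q1 hκ10
  exact q2.trans (mul_le_mul_of_nonneg_right hκ12.le hD)

/-- the constants -/
theorem num1 (m : ℕ) (hm : 1 ≤ m) (κ : ℝ) (hκ : (m : ℝ) / 2 + 2 / (3 * m) < κ) :
    ∃ γ : ℝ, 0 < γ ∧ γ < Real.pi ∧
      (m : ℝ) / 2 * Rw γ 0 + 4 / m * (∫ α in (0 : ℝ)..1, α * Rw γ α) < κ := by
  have hm0 : (0 : ℝ) < m := by exact_mod_cast hm
  have h1 : ((m ^ 2 : ℕ) : ℝ) / 2 + 2 / 3 < m * κ := by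
    have h2 := mul_lt_mul_of_pos_left hκ hm0
    have h3 : (m : ℝ) * ((m : ℝ) / 2 + 2 / (3 * m)) = ((m ^ 2 : ℕ) : ℝ) / 2 + 2 / 3 := by
      push_cast
      field_simp
    linarith
  obtain ⟨γ, a1, a2, a3⟩ := t_num (m ^ 2) (m * κ) (Nat.one_le_pow _ _ hm) h1
  refine ⟨γ, a1, a2, ?_⟩
  rw [← mul_lt_mul_iff_right₀ hm0]
  calc (m : ℝ) * ((m : ℝ) / 2 * Rw γ 0 + 4 / m * (∫ α in (0 : ℝ)..1, α * Rw γ α))
      = ((m ^ 2 : ℕ) : ℝ) / 2 * Rw γ 0 + 4 * (∫ α in (0 : ℝ)..1, α * Rw γ α) := by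
        push_cast
        field_simp
    _ < m * κ := a3

end Pool.Agent.JZ12.HD
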