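import Pool.Agent.Y767.CA.Zr
import Pool.Agent.JZ12.HD.Fin1
import Pool.Agent.JZ12.HD.Cmp
import Pool.Agent.W388.TW.Parts
import Pool.Agent.JZ12.Pos

/-!
# The average multiplicity of the zeros of the twists of a cuspidal automorphic representation
-/

set_option autoImplicit false

open Complex Filter Topology Set MeasureTheory
open H370 (NN Ns Nd zset mult)
open H385 (primFamM Rw)
open Pool.Agent.Y767.CA (CD sel_of)

namespace Pool.Agent.JZ12.HD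

/-- **Average multiplicity**, general form -/
theorem ca_fin {m : ℕ} (hm : 0 < m) (D : CD m) (κ₀ : ℝ)
    (hκ : (m : ℝ) / 2 + 2 / (3 * m) < κ₀) :
    ∃ κ η X0 : ℝ, 1 ≤ κ ∧ 0 < η ∧ 1 ≤ X0 ∧
      ∀ (X Y : ℕ) (T : ℝ), X0 ≤ X → κ * X ≤ Y → (Y : ℝ) ≤ (X : ℝ) ^ (1 + η) →
        (Real.log X) ^ 2 ≤ T → T ≤ (X : ℝ) ^ η →
        0 < primFamM D.N X Y (fun q χ => (Nh (D.F q χ) T (2 * T) : ℝ)) ∧
        primFamM D.N X Y (fun q χ => (NN (D.F q χ) T (2 * T) : ℝ)) ≤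
          κ₀ * primFamM D.N X Y (fun q χ => (Nh (D.F q χ) T (2 * T) : ℝ)) := by
  classical
  have hN0 : D.N ≠ 0 := by have := D.N_pos; omega
  obtain ⟨M, hM⟩ : ∃ M : ℕ, M = W388.rad D.N := ⟨_, rfl⟩
  have hMsq : Squarefree M := by rw [hM]; exact W388.rad_squarefree _
  have hcop : ∀ q : ℕ, Nat.Coprime q M ↔ Nat.Coprime q D.N := by
    rw [hM]; exact W388.coprime_rad hN0
  obtain ⟨A, hA, hgood⟩ := D.good hm
  obtain ⟨W, hWd⟩ : ∃ W : ℝ, W = D.W := ⟨_, rfl⟩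
  have hW0 : 0 ≤ W := by rw [hWd]; linarith [D.W_ge]
  have hd : (1 : ℝ) ≤ (m : ℝ) := by exact_mod_cast hm
  obtain ⟨F, hFdef⟩ : ∃ F : (q : ℕ) → DirichletCharacter ℂ q → ℂ → ℂ, F = D.F := ⟨_, rfl⟩
  obtain ⟨G, hG⟩ : ∃ G : (q : ℕ) → DirichletCharacter ℂ q → ℂ → ℂ,
    G = fun q χ z => F q χ (z + (W : ℂ) * I) := ⟨_, rfl⟩
  have hGq : ∀ (q : ℕ) (χ : DirichletCharacter ℂ q), G q χ = fun z => F q χ (z + (W : ℂ) * I) :=
    fun q χ => by rw [hG]
  have hGD : ∀ (q : ℕ) (χ : DirichletCharacter ℂ q), G q χ = D.G q χ := fun q χ => by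
    rw [hGq, hFdef, hWd]
    rfl
  have hTw : W388.TwE (m : ℝ) A M D.c G := by
    intro q χ hq hqM hχ
    rw [hGD]
    exact (hgood q χ hq ((hcop q).1 hqM) hχ).2
  have hSel : W388.SelE D.c := by
    have h1 := sel_of D.rs_sum D.rs_lim
    have h2 := Pool.Agent.Y772.HI.selE_shift h1 D.W
    exact h2
  rw [← hFdef]
  -- the constants
  obtain ⟨κ₁, hκ1, hκ3⟩ := exists_between hκ
  have hmm : 0 ≤ (m : ℝ) / 2 + 2 / (3 * m) := by positivity
  have hκ10 : 0 < κ₁ := lt_of_le_of_lt hmm hκ1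
  obtain ⟨γ, h0, hπ, hγ⟩ := num1 m hm κ₁ hκ1
  obtain ⟨κ, η, X0, hκ', hη, hX0, hfin⟩ := finh1 (t_corexh t_perxh) W388.p_mean (m : ℝ) hd A hA M
    hMsq _ G hTw hSel γ κ₁ h0 hπ hγ
  obtain ⟨Kp, Xp, hKp, hXp, hpos⟩ := t_pos (m : ℝ) A hd hA M hMsq _ G hTw
  obtain ⟨ε, hε⟩ : ∃ ε : ℝ, ε = (κ₀ - κ₁) / (κ₁ * (1 + κ₀)) := ⟨_, rfl⟩
  have hκ00 : 0 < κ₀ := hκ10.trans hκ3
  have hε0 : 0 < ε := by
    rw [hε]
    exact div_pos (by linarith) (by positivity)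
  have hεκ : (1 + ε) * κ₁ = κ₀ * (1 - ε * κ₁) := by
    rw [hε]
    field_simp
    ring
  obtain ⟨X1, hX1, hcmp⟩ := cmp_main (m : ℝ) A W hd hA hW0 ε hε0
  refine ⟨max κ Kp, min η 1, max (max X0 X1) (max 2 Xp), le_max_of_le_left hκ', lt_min hη one_pos,
    le_max_of_le_left (le_max_of_le_left hX0), ?_⟩
  · intro X Y T a1 a2 a3 a4 a5
    have hXX0 : X0 ≤ (X : ℝ) := ((le_max_left _ _).trans (le_max_left _ _)).trans a1
    have hXX1 : X1 ≤ (X : ℝ) := ((le_max_right _ _).trans (le_max_left _ _)).trans a1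
    have hX2 : (2 : ℝ) ≤ (X : ℝ) := ((le_max_left _ _).trans (le_max_right _ _)).trans a1
    have hXXp : Xp ≤ (X : ℝ) := ((le_max_right _ _).trans (le_max_right _ _)).trans a1
    have hX0' : (0 : ℝ) ≤ (X : ℝ) := by linarith
    have a2' : κ * X ≤ Y := (mul_le_mul_of_nonneg_right (le_max_left _ _) hX0').trans a2
    have a2p : Kp * X ≤ Y := (mul_le_mul_of_nonneg_right (le_max_right _ _) hX0').trans a2
    have hX1' : (1 : ℝ) ≤ (X : ℝ) := by linarith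
    have a3' : (Y : ℝ) ≤ (X : ℝ) ^ (1 + η) := a3.trans
      (Real.rpow_le_rpow_of_exponent_le hX1' (by linarith [min_le_left η 1]))
    have a5' : T ≤ (X : ℝ) ^ η := a5.trans
      (Real.rpow_le_rpow_of_exponent_le hX1' (min_le_left _ _))
    have hY2 : (Y : ℝ) ≤ (X : ℝ) ^ 2 := by
      refine a3.trans ?_
      have := Real.rpow_le_rpow_of_exponent_le hX1' (show 1 + min η 1 ≤ ((2 : ℕ) : ℝ) by
        push_cast
        linarith [min_le_right η 1])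
      rwa [Real.rpow_natCast] at this
    have hTX : T ≤ (X : ℝ) := by
      have := a5.trans (Real.rpow_le_rpow_of_exponent_le hX1' (min_le_right η 1))
      rwa [Real.rpow_one] at this
    have b1 := hfin X Y T hXX0 a2' a3' a4 a5'
    have b0 := hpos X Y T hXXp a2p hY2 a4 hTX
    -- comparison
    have hc : ∀ (q : ℕ) (χ : DirichletCharacter ℂ q), X < q → q ≤ Y → Nat.Coprime q M →
        χ.IsPrimitive →
        (NN (F q χ) T (2 * T) : ℝ) ≤ (1 + ε) * NN (G q χ) T (2 * T) ∧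
        (Nh (G q χ) T (2 * T) : ℝ) ≤ Nh (F q χ) T (2 * T) + ε * NN (G q χ) T (2 * T) := by
      intro q χ hXq hqY hqM hχ
      have hX2n : 2 ≤ X := by exact_mod_cast hX2
      have hq2 : 2 ≤ q := by omega
      have ha := (hgood q χ hq2 ((hcop q).1 hqM) hχ).1
      rw [← hGD, hGq] at ha
      rw [hGq]
      have hqX : (X : ℝ) ≤ (q : ℝ) := by exact_mod_cast hXq.le
      have hqYr : (q : ℝ) ≤ (Y : ℝ) := by exact_mod_cast hqY
      refine hcmp (X : ℝ) q T (F q χ) _ hXX1 hqX ?_ a4 hTX ha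
      calc (q : ℝ) ≤ (X : ℝ) ^ 2 := hqYr.trans hY2
        _ ≤ (X : ℝ) ^ 3 := pow_le_pow_right₀ hX1' (by norm_num)
    obtain ⟨SF, hSF⟩ : ∃ S : ℝ, S = primFamM M X Y (fun q χ => (NN (F q χ) T (2 * T) : ℝ)) :=
      ⟨_, rfl⟩
    obtain ⟨SG, hSG⟩ : ∃ S : ℝ, S = primFamM M X Y (fun q χ => (NN (G q χ) T (2 * T) : ℝ)) :=
      ⟨_, rfl⟩
    have hSG0 : 0 ≤ SG := by
      rw [hSG]
      exact H385.primFamM_nonneg _ _ _ _ (fun _ _ => Nat.cast_nonneg _)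
    have hSF0 : 0 ≤ SF := by
      rw [hSF]
      exact H385.primFamM_nonneg _ _ _ _ (fun _ _ => Nat.cast_nonneg _)
    have e1 : SF ≤ (1 + ε) * SG := by
      have h1 := H385.primFamM_mono M X Y (fun q χ => (NN (F q χ) T (2 * T) : ℝ))
        (fun q χ => (1 + ε) * (NN (G q χ) T (2 * T) : ℝ) - 0 * (NN (G q χ) T (2 * T) : ℝ))
        (fun q χ h1 h2 h3 h4 => by
          rw [zero_mul, sub_zero]
          exact (hc q χ h1 h2 h3 h4).1)
      rw [H385.primFamM_lin, zero_mul, sub_zero, ← hSG, ← hSF] at h1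
      exact h1
    have e2 : primFamM M X Y (fun q χ => (Nh (G q χ) T (2 * T) : ℝ)) - ε * SG ≤
        primFamM M X Y (fun q χ => (Nh (F q χ) T (2 * T) : ℝ)) := by
      have h1 := H385.primFamM_mono M X Y
        (fun q χ => 1 * (Nh (G q χ) T (2 * T) : ℝ) - ε * (NN (G q χ) T (2 * T) : ℝ))
        (fun q χ => (Nh (F q χ) T (2 * T) : ℝ))
        (fun q χ h1 h2 h3 h4 => by
          have := (hc q χ h1 h2 h3 h4).2
          linarith)
      rwa [H385.primFamM_lin, one_mul, ← hSG] at h1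
    rw [← hSG] at b0 b1
    obtain ⟨HF, hHF⟩ : ∃ S : ℝ, S = primFamM M X Y (fun q χ => (Nh (F q χ) T (2 * T) : ℝ)) :=
      ⟨_, rfl⟩
    obtain ⟨HG, hHG⟩ : ∃ S : ℝ, S = primFamM M X Y (fun q χ => (Nh (G q χ) T (2 * T) : ℝ)) :=
      ⟨_, rfl⟩
    rw [← hHF, ← hHG] at e2
    rw [← hHG] at b1
    have h1 : SG ≤ κ₁ * (HF + ε * SG) :=
      b1.trans (mul_le_mul_of_nonneg_left (by linarith) hκ10.le)
    have h2 : (1 - ε * κ₁) * SG ≤ κ₁ * HF := by linarith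
    have key0 : 0 < HF := by
      have h3 : 0 < κ₀ * (1 - ε * κ₁) := by
        rw [← hεκ]
        positivity
      have h4 : 0 < 1 - ε * κ₁ := (pos_iff_pos_of_mul_pos h3).1 hκ00
      have h5 : 0 < κ₁ * HF := (mul_pos h4 b0).trans_le h2
      exact (pos_iff_pos_of_mul_pos h5).1 hκ10
    have key : SF ≤ κ₀ * HF := by
      have h3 : κ₀ * ((1 - ε * κ₁) * SG) ≤ κ₀ * (κ₁ * HF) :=
        mul_le_mul_of_nonneg_left h2 hκ00.le
      have h4 : κ₁ * ((1 + ε) * SG) ≤ κ₁ * (κ₀ * HF) := by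
        calc κ₁ * ((1 + ε) * SG) = (1 + ε) * κ₁ * SG := by ring
          _ = κ₀ * ((1 - ε * κ₁) * SG) := by rw [hεκ]; ring
          _ ≤ κ₀ * (κ₁ * HF) := h3
          _ = κ₁ * (κ₀ * HF) := by ring
      exact e1.trans (le_of_mul_le_mul_left h4 hκ10)
    rw [hSF] at key
    rw [hHF] at key key0
    simp only [hM, W388.primFamM_rad hN0] at key key0
    exact ⟨key0, key⟩

end Pool.Agent.JZ12.HD
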