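import Pool.Agent.Y772.HG.Sel
import Pool.Agent.Y773.HG.Top

/-!
# Selberg orthonormality for the Artin representations induced from Galois fields of any degree and
any signature
-/

set_option autoImplicit false

open NumberField Complex Filter Topology Ideal
open scoped ArithmeticFunction.vonMangoldt Pointwise

namespace Pool.Agent.JZ12.HD

open Pool.Agent.Y773.G
open Pool.Agent.Y772
open Pool.Agent.Y772.G
open Pool.Agent.Y773 (LI TPos cc rs gal VM)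
open Pool.Agent.Y772.NZ Pool.Agent.Y772.SK
open Pool.Agent.Y772.SL (SelData res res_of smul_isCoprime smul_span_nat sel_gal)

/-- **Selberg orthonormality**, Galois case, any signature -/
theorem sel_galoisG {K : Type} [Field K] [NumberField K] (hG : IsGalois ℚ K)
    {𝔣 : Ideal (𝓞 K)} {ψ : Ideal (𝓞 K) →*₀ ℂ} (hψ : IsPrimChar K 𝔣 ψ)
    (hne : ∀ σ : Gal(K/ℚ), σ ≠ 1 → ∃ 𝔞 : Ideal (𝓞 K), Nat.Coprime (absNorm 𝔞) (absNorm 𝔣) ∧
      ψ (σ • 𝔞) ≠ ψ 𝔞) : SelData (cc ψ) := by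
  classical
  have hch : ∀ σ : Gal(K/ℚ), ∃ 𝔞 : Ideal (𝓞 K), absNorm 𝔞 ≠ 0 ∧
      (σ ≠ 1 → Nat.Coprime (absNorm 𝔞) (absNorm 𝔣) ∧ ψ (σ • 𝔞) ≠ ψ 𝔞) := by
    intro σ
    by_cases h : σ = 1
    · exact ⟨⊤, by rw [absNorm_top]; exact one_ne_zero, fun h' => absurd h h'⟩
    · obtain ⟨𝔞, h1, h2⟩ := hne σ h
      refine ⟨𝔞, fun h0 => h2 ?_, fun _ => ⟨h1, h2⟩⟩
      rw [absNorm_eq_zero_iff] at h0
      rw [h0, Ideal.smul_bot]
  choose a ha0 ha using hch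
  obtain ⟨ℓ, hℓ, hℓp⟩ := Nat.exists_infinite_primes ((∏ σ : Gal(K/ℚ), absNorm (a σ)) + 1)
  have hP0 : 0 < ∏ σ : Gal(K/ℚ), absNorm (a σ) :=
    Finset.prod_pos fun σ _ => Nat.pos_of_ne_zero (ha0 σ)
  have hℓa : ∀ σ : Gal(K/ℚ), ¬ ℓ ∣ absNorm (a σ) := by
    intro σ h
    have h1 : ℓ ∣ ∏ σ : Gal(K/ℚ), absNorm (a σ) :=
      h.trans (Finset.dvd_prod_of_mem _ (Finset.mem_univ σ))
    have h2 := Nat.le_of_dvd hP0 h1
    omega
  set M : ℕ := ℓ * absNorm 𝔣 with hM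
  have hN0 : absNorm 𝔣 ≠ 0 := by rw [Ne, absNorm_eq_zero_iff]; exact hψ.ne_bot
  have hM2 : 2 ≤ M := by
    have := hℓp.two_le
    have := Nat.pos_of_ne_zero hN0
    nlinarith
  have h𝔪0 : Ideal.span {(M : 𝓞 K)} ≠ ⊥ := by
    rw [Ne, Ideal.span_singleton_eq_bot, Nat.cast_eq_zero]
    omega
  have h𝔪1 := Pool.Agent.Y772.G.span_ne_top (K := K) hM2
  have hle : Ideal.span {(M : 𝓞 K)} ≤ 𝔣 := by
    rw [Ideal.span_singleton_le_iff_mem, hM]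
    push_cast
    exact Ideal.mul_mem_left _ _ (absNorm_mem 𝔣)
  obtain ⟨e, he⟩ := Pool.Agent.Y772.G.res_mod hψ h𝔪0 h𝔪1 hle
  set η := res (Ideal.span {(M : 𝓞 K)}) ψ with hη
  have haM : ∀ σ : Gal(K/ℚ), σ ≠ 1 → IsCoprime (a σ) (Ideal.span {(M : 𝓞 K)}) := by
    intro σ hσ
    rw [TW.coprime_q, hM]
    refine Nat.Coprime.mul_right ?_ (ha σ hσ).1
    exact ((Nat.Prime.coprime_iff_not_dvd hℓp).2 (hℓa σ)).symm
  have hcont : ∀ σ : Gal(K/ℚ), σ ≠ 1 → ∃ 𝔞, IsCoprime 𝔞 (Ideal.span {(M : 𝓞 K)}) ∧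
      rs σ.toRingEquiv η 𝔞 ≠ 1 := by
    intro σ hσ
    refine ⟨a σ, haM σ hσ, fun h2 => (ha σ hσ).2 ?_⟩
    rw [rs_apply] at h2
    have h3 : IsCoprime (σ • (a σ)) (Ideal.span {(M : 𝓞 K)}) := by
      have := smul_isCoprime σ (haM σ hσ)
      rwa [smul_span_nat] at this
    have h4 := mc_norm he h3
    have h5 : (starRingEnd ℂ) (η (σ • (a σ))) * η (σ • (a σ)) = 1 := by
      rw [mul_comm, Complex.mul_conj, Complex.normSq_eq_norm_sq, h4]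
      simp
    have h6 : η (σ • (a σ)) = η (a σ) := by
      calc η (σ • (a σ)) = (η (a σ) * (starRingEnd ℂ) (η (σ • (a σ)))) * η (σ • (a σ)) := by
            rw [h2, one_mul]
        _ = η (a σ) := by rw [mul_assoc, h5, mul_one]
    rwa [hη, res_of h3, res_of (haM σ hσ)] at h6
  have hdata : SelData (cc η) := by
    refine sel_gal DK.t_dirK hG η (mc_le he) ⟨_, h𝔪0, fun 𝔞 h => mc_norm he h⟩
      fun σ hσ => ?_
    obtain ⟨e', he'⟩ := Pool.Agent.Y772.G.rs_mod he σ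
    exact Pool.Agent.Y772.G.reg_one t_ent he' (hcont σ hσ)
  refine hdata.congr M.primeFactors fun q hq hqM => ?_
  have hqM' : ¬ q ∣ M := fun h => hqM (Nat.mem_primeFactors.2 ⟨hq, h, by omega⟩)
  obtain ⟨A, hA, hDK⟩ := DK.t_dirK K
  rw [(hDK ψ (Pool.Agent.Y772.G.prim_norm_le hψ)).2.2.2.2.2.2.2.1 q hq,
    (hDK η (mc_le he)).2.2.2.2.2.2.2.1 q hq]
  refine finsum_mem_congr rfl fun Q hQ => ?_
  rw [hη, res_of (Pool.Agent.Y772.G.coprime_of_norm hq hQ hqM')]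

end Pool.Agent.JZ12.HD
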