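import Pool.Agent.Y773.HG.Top
import Pool.Agent.JZ12.HD.Fin1
import Pool.Agent.JZ12.HD.GalG
import Pool.Agent.JZ12.Pos
import Pool.Agent.W388.TW.Parts

/-!
# The average multiplicity of the zeros of the twists of the L-functions induced from ray class
characters of number fields of arbitrary signature
-/

set_option autoImplicit false
set_option linter.unusedSectionVars false

open NumberField Complex Filter Topology Set MeasureTheory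
open H370 (NN Ns Nd)
open H385 (primFamM Rw)

namespace Pool.Agent.JZ12.HD

open Pool.Agent.Y773 (LI TPos cc tw VM mul_span_ne_top absNorm_span_nat)
open Pool.Agent.Y773.G (IsPrimChar twE_of t_nv)

variable {K : Type} [Field K] [NumberField K]

/-- **Average multiplicity**, general form -/
theorem hg_fin {𝔣 : Ideal (𝓞 K)} {ψ : Ideal (𝓞 K) →*₀ ℂ} (h : IsPrimChar K 𝔣 ψ) :
    ∃ F : (q : ℕ) → DirichletCharacter ℂ q → ℂ → ℂ,
      (∀ (q : ℕ) (χ : DirichletCharacter ℂ q), 2 ≤ q →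
        Nat.Coprime q (Ideal.absNorm 𝔣 * (discr K).natAbs) → χ.IsPrimitive →
        Differentiable ℂ (F q χ) ∧ (∀ s : ℂ, 1 < s.re → F q χ s = LI (tw ψ χ) s) ∧
          (∃ s₀ : ℂ, F q χ s₀ ≠ 0) ∧ ∀ 𝔞, ‖tw ψ χ 𝔞‖ ≤ 1) ∧
      (W388.SelE (cc ψ) → ∀ κ₀ : ℝ, (Module.finrank ℚ K : ℝ) / 2 + 2 / (3 * (Module.finrank ℚ K : ℝ)) < κ₀ →
      ∃ κ η X0 : ℝ, 1 ≤ κ ∧ 0 < η ∧ 1 ≤ X0 ∧
      ∀ (X Y : ℕ) (T : ℝ), X0 ≤ X → κ * X ≤ Y → (Y : ℝ) ≤ (X : ℝ) ^ (1 + η) →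
        (Real.log X) ^ 2 ≤ T → T ≤ (X : ℝ) ^ η →
        0 < primFamM (Ideal.absNorm 𝔣 * (discr K).natAbs) X Y
            (fun q χ => (Nh (F q χ) T (2 * T) : ℝ)) ∧
        primFamM (Ideal.absNorm 𝔣 * (discr K).natAbs) X Y
            (fun q χ => (NN (F q χ) T (2 * T) : ℝ)) ≤
          κ₀ * primFamM (Ideal.absNorm 𝔣 * (discr K).natAbs) X Y
            (fun q χ => (Nh (F q χ) T (2 * T) : ℝ))) := by
  classical
  set N : ℕ := Ideal.absNorm 𝔣 * (discr K).natAbs with hN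
  have hN0 : N ≠ 0 := mul_ne_zero (fun h1 => h.ne_bot (Ideal.absNorm_eq_zero_iff.mp h1))
    (Int.natAbs_ne_zero.mpr (discr_ne_zero K))
  set M := W388.rad N with hM
  have hMsq : Squarefree M := W388.rad_squarefree N
  have htw : ∀ (q : ℕ) (χ : DirichletCharacter ℂ q), 2 ≤ q → χ.IsPrimitive → Nat.Coprime q M →
      IsPrimChar K (𝔣 * Ideal.span {(q : 𝓞 K)}) (tw ψ χ) := by
    intro q χ hq hχ hqM
    have hqN : Nat.Coprime q N := (W388.coprime_rad hN0 q).mp hqM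
    refine Pool.Agent.Y772.G.t_tw K 𝔣 ψ h q χ (by omega) hχ ?_ ?_
    · exact Nat.Coprime.coprime_dvd_right (dvd_mul_right _ _) hqN
    · have h1 : Nat.Coprime q (discr K).natAbs :=
        Nat.Coprime.coprime_dvd_right (dvd_mul_left _ _) hqN
      rw [Int.isCoprime_iff_gcd_eq_one]
      simpa [Int.gcd] using h1
  obtain ⟨A, F, hA, hF, hF2⟩ := twE_of Pool.Agent.Y772.G.t_sig h M htw
    (fun q χ G s₀ hq hχ hqM hs0 hG hGL =>
      t_nv K _ _ (htw q χ hq hχ hqM) (mul_span_ne_top hq) G s₀ hs0 hG hGL)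
  have hm : 1 ≤ Module.finrank ℚ K := Module.finrank_pos
  have hd : (1 : ℝ) ≤ (Module.finrank ℚ K : ℝ) := by exact_mod_cast hm
  refine ⟨F, ?_, ?_⟩
  · intro q χ hq hqN hχ
    have hqM := (W388.coprime_rad hN0 q).mpr hqN
    obtain ⟨h1, h2⟩ := hF2 q χ hq hqM hχ
    refine ⟨h1, h2, ⟨1, ?_⟩, Pool.Agent.Y772.G.prim_norm_le (htw q χ hq hχ hqM)⟩
    exact t_nv K _ _ (htw q χ hq hχ hqM) (mul_span_ne_top hq) (F q χ) 1 (by simp)
      (h1.analyticAt 1) h2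
  intro hSel κ₀ hκ
  obtain ⟨γ, h0, hπ, hγ⟩ := num1 (Module.finrank ℚ K) hm κ₀ hκ
  obtain ⟨κ, η, X0, hκ', hη, hX0, hfin⟩ := finh1 (t_corexh t_perxh) W388.p_mean
    (Module.finrank ℚ K : ℝ) hd A hA M hMsq (cc ψ) F hF hSel γ κ₀ h0 hπ hγ
  obtain ⟨Kp, Xp, hKp, hXp, hpos⟩ := t_pos (Module.finrank ℚ K : ℝ) A hd hA M hMsq (cc ψ) F hF
  have hmm : 0 ≤ (Module.finrank ℚ K : ℝ) / 2 + 2 / (3 * (Module.finrank ℚ K : ℝ)) := by positivity
  have hκ00 : 0 < κ₀ := lt_of_le_of_lt hmm hκ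
  refine ⟨max κ Kp, min η 1, max X0 Xp, le_max_of_le_left hκ', lt_min hη one_pos,
    le_max_of_le_left hX0, ?_⟩
  intro X Y T a1 a2 a3 a4 a5
  have hXX0 : X0 ≤ (X : ℝ) := (le_max_left _ _).trans a1
  have hXXp : Xp ≤ (X : ℝ) := (le_max_right _ _).trans a1
  have hX1' : (1 : ℝ) ≤ (X : ℝ) := hX0.trans hXX0
  have hX0' : (0 : ℝ) ≤ (X : ℝ) := by linarith
  have a2' : κ * X ≤ Y := (mul_le_mul_of_nonneg_right (le_max_left _ _) hX0').trans a2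
  have a2p : Kp * X ≤ Y := (mul_le_mul_of_nonneg_right (le_max_right _ _) hX0').trans a2
  have a3' : (Y : ℝ) ≤ (X : ℝ) ^ (1 + η) := a3.trans
    (Real.rpow_le_rpow_of_exponent_le hX1' (by linarith [min_le_left η 1]))
  have a5' : T ≤ (X : ℝ) ^ η := a5.trans
    (Real.rpow_le_rpow_of_exponent_le hX1' (min_le_left _ _))
  have hY2 : (Y : ℝ) ≤ (X : ℝ) ^ 2 := by
    refine a3.trans ?_
    have := Real.rpow_le_rpow_of_exponent_le hX1' (show 1 + min η 1 ≤ ((2 : ℕ) : ℝ) by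
      push_cast
      linarith [min_le_right η 1])
    rwa [Real.rpow_natCast] at this
  have hTX : T ≤ (X : ℝ) := by
    have := a5.trans (Real.rpow_le_rpow_of_exponent_le hX1' (min_le_right η 1))
    rwa [Real.rpow_one] at this
  have b1 := hfin X Y T hXX0 a2' a3' a4 a5'
  have b0 := hpos X Y T hXXp a2p hY2 a4 hTX
  have key0 : 0 < primFamM M X Y (fun q χ => (Nh (F q χ) T (2 * T) : ℝ)) :=
    (pos_iff_pos_of_mul_pos (b0.trans_le b1)).1 hκ00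
  simp only [hM, W388.primFamM_rad hN0] at b1 key0
  exact ⟨key0, b1⟩

/-- **Selberg orthonormality**, Galois fields of any degree and signature -/
theorem hg_galois (hG : IsGalois ℚ K) {𝔣 : Ideal (𝓞 K)}
    {ψ : Ideal (𝓞 K) →*₀ ℂ} (hψ : IsPrimChar K 𝔣 ψ)
    (hne : ∀ σ : K ≃ₐ[ℚ] K, σ ≠ 1 → ∃ 𝔞 : Ideal (𝓞 K),
      Nat.Coprime (Ideal.absNorm 𝔞) (Ideal.absNorm 𝔣) ∧
      ψ (𝔞.map (RingOfIntegers.mapRingEquiv (σ : K ≃+* K))) ≠ ψ 𝔞) : W388.SelE (cc ψ) := by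
  have key : Pool.Agent.Y772.SL.SelData (cc ψ) := by
    refine sel_galoisG hG hψ fun σ hσ => ?_
    obtain ⟨𝔞, h1, h2⟩ := hne σ hσ
    exact ⟨𝔞, h1, by rw [Pool.Agent.Y772.SK.smul_eq_map]; exact h2⟩
  obtain ⟨A, hA, hDK⟩ := Pool.Agent.Y772.DK.t_dirK K
  exact key.selE (hDK ψ (Pool.Agent.Y772.G.prim_norm_le hψ)).2.2.2.2.2.2.1

end Pool.Agent.JZ12.HD
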