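import Pool.Agent.Y772.HI.Fin
import Pool.Agent.JZ12.HD.Fin1
import Pool.Agent.JZ12.HD.Cmp
import Pool.Agent.JZ12.HD.Gal
import Pool.Agent.W388.TW.Parts
import Pool.Agent.JZ12.Pos

/-!
# The average multiplicity of the zeros of the twists of the L-functions induced from Hecke
characters
-/

set_option autoImplicit false
set_option linter.unusedSectionVars false

open NumberField Complex Filter Topology Set MeasureTheory
open H370 (NN Ns Nd)
open H385 (primFamM Rw)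

namespace Pool.Agent.JZ12.HD

open Pool.Agent.Y773 (LI TPos cc tw VM mul_span_ne_top absNorm_span_nat)
open Pool.Agent.Y767
open Pool.Agent.Y772.HI (selE_shift tw_hecke exists_LF good_tw)

variable {K : Type} [Field K] [NumberField K] [IsTotallyReal K]

/-- **Average multiplicity**, general form -/
theorem hi_fin {𝔣 : Ideal (𝓞 K)} {ν : InfinitePlace K → ℝ} {ψ : Ideal (𝓞 K) →*₀ ℂ}
    (hψ : IsHecke K 𝔣 ν ψ) (hν : ∑ w, ν w = 0)
    (hSel : W388.SelE (cc ψ)) (κ₀ : ℝ)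
    (hκ : (Module.finrank ℚ K : ℝ) / 2 + 2 / (3 * (Module.finrank ℚ K : ℝ)) < κ₀) :
    ∃ F : (q : ℕ) → DirichletCharacter ℂ q → ℂ → ℂ,
      (∀ (q : ℕ) (χ : DirichletCharacter ℂ q), 2 ≤ q →
        Nat.Coprime q (Ideal.absNorm 𝔣 * (discr K).natAbs) → χ.IsPrimitive →
        Differentiable ℂ (F q χ) ∧ ∀ s : ℂ, 1 < s.re → F q χ s = LI (tw ψ χ) s) ∧
      ∃ κ η X0 : ℝ, 1 ≤ κ ∧ 0 < η ∧ 1 ≤ X0 ∧
      ∀ (X Y : ℕ) (T : ℝ), X0 ≤ X → κ * X ≤ Y → (Y : ℝ) ≤ (X : ℝ) ^ (1 + η) →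
        (Real.log X) ^ 2 ≤ T → T ≤ (X : ℝ) ^ η →
        0 < primFamM (Ideal.absNorm 𝔣 * (discr K).natAbs) X Y
            (fun q χ => (Nh (F q χ) T (2 * T) : ℝ)) ∧
        primFamM (Ideal.absNorm 𝔣 * (discr K).natAbs) X Y
            (fun q χ => (NN (F q χ) T (2 * T) : ℝ)) ≤
          κ₀ * primFamM (Ideal.absNorm 𝔣 * (discr K).natAbs) X Y
            (fun q χ => (Nh (F q χ) T (2 * T) : ℝ)) := by
  classical
  set N : ℕ := Ideal.absNorm 𝔣 * (discr K).natAbs with hN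
  have hN0 : N ≠ 0 := mul_ne_zero (fun h1 => hψ.ne_bot (Ideal.absNorm_eq_zero_iff.mp h1))
    (Int.natAbs_ne_zero.mpr (discr_ne_zero K))
  set M := W388.rad N with hM
  have hMsq : Squarefree M := W388.rad_squarefree N
  have htw : ∀ (q : ℕ) (χ : DirichletCharacter ℂ q), 2 ≤ q → χ.IsPrimitive → Nat.Coprime q M →
      IsHecke K (𝔣 * Ideal.span {(q : 𝓞 K)}) ν (tw ψ χ) := by
    intro q χ hq hχ hqM
    have hqN : Nat.Coprime q N := (W388.coprime_rad hN0 q).mp hqM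
    refine tw_hecke hψ χ (by omega) hχ ?_ ?_
    · exact Nat.Coprime.coprime_dvd_right (dvd_mul_right _ _) hqN
    · have h1 : Nat.Coprime q (discr K).natAbs :=
        Nat.Coprime.coprime_dvd_right (dvd_mul_left _ _) hqN
      rw [Int.isCoprime_iff_gcd_eq_one]
      simpa [Int.gcd] using h1
  -- the L-functions
  have hex : ∀ (q : ℕ) (χ : DirichletCharacter ℂ q), ∃ F : ℂ → ℂ,
      (2 ≤ q → Nat.Coprime q M → χ.IsPrimitive → Differentiable ℂ F ∧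
        ∀ s : ℂ, 1 < s.re → F s = LI (tw ψ χ) s) := by
    intro q χ
    by_cases hc : 2 ≤ q ∧ Nat.Coprime q M ∧ χ.IsPrimitive
    · obtain ⟨hq, hqM, hχ⟩ := hc
      obtain ⟨F, h1, h2⟩ := exists_LF (htw q χ hq hχ hqM) hν (mul_span_ne_top hq)
      exact ⟨F, fun _ _ _ => ⟨h1, h2⟩⟩
    · exact ⟨0, fun h1 h2 h3 => absurd ⟨h1, h2, h3⟩ hc⟩
  choose F hF using hex
  -- the shift
  set V : ℝ := ∑ w, |ν w| with hV
  have hV0 : 0 ≤ V := Finset.sum_nonneg fun _ _ => abs_nonneg _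
  have hVν : ∀ w, |ν w| ≤ V := fun w =>
    Finset.single_le_sum (f := fun w => |ν w|) (fun _ _ => abs_nonneg _) (Finset.mem_univ w)
  obtain ⟨A₁, A₂, c₁, hA₁, hA₂, hc₁, hgood⟩ := good_tw hψ hν hV0 hVν
  set W : ℝ := V + 1 with hW
  have hW0 : 0 ≤ W := by linarith
  have hd : (1 : ℝ) ≤ (Module.finrank ℚ K : ℝ) := by
    have := Module.finrank_pos (R := ℚ) (M := K)
    exact_mod_cast this
  obtain ⟨G, hG⟩ : ∃ G : (q : ℕ) → DirichletCharacter ℂ q → ℂ → ℂ,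
    G = fun q χ z => F q χ (z + (W : ℂ) * I) := ⟨_, rfl⟩
  have hGq : ∀ (q : ℕ) (χ : DirichletCharacter ℂ q), G q χ = fun z => F q χ (z + (W : ℂ) * I) :=
    fun q χ => by rw [hG]
  have hTw : W388.TwE (Module.finrank ℚ K : ℝ) A₂ M
      (fun m => cc ψ m * (m : ℂ) ^ (-((W : ℂ) * I))) G := by
    intro q χ hq hqM hχ
    obtain ⟨h1, h2⟩ := hF q χ hq hqM hχ
    rw [hGq]
    exact (hgood q χ (F q χ) hq (htw q χ hq hχ hqM) h1 h2).2
  -- the constants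
  obtain ⟨κ₁, hκ1, hκ3⟩ := exists_between hκ
  have hm : 1 ≤ Module.finrank ℚ K := Module.finrank_pos
  have hmm : 0 ≤ (Module.finrank ℚ K : ℝ) / 2 + 2 / (3 * (Module.finrank ℚ K : ℝ)) := by positivity
  have hκ10 : 0 < κ₁ := lt_of_le_of_lt hmm hκ1
  obtain ⟨γ, h0, hπ, hγ⟩ := num1 (Module.finrank ℚ K) hm κ₁ hκ1
  obtain ⟨κ, η, X0, hκ', hη, hX0, hfin⟩ := finh1 (t_corexh t_perxh) W388.p_mean
    (Module.finrank ℚ K : ℝ) hd A₂ hA₂ M hMsq _ G hTw (selE_shift hSel W) γ κ₁ h0 hπ hγ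
  obtain ⟨Kp, Xp, hKp, hXp, hpos⟩ := t_pos (Module.finrank ℚ K : ℝ) A₂ hd hA₂ M hMsq _ G hTw
  obtain ⟨ε, hε⟩ : ∃ ε : ℝ, ε = (κ₀ - κ₁) / (κ₁ * (1 + κ₀)) := ⟨_, rfl⟩
  have hκ00 : 0 < κ₀ := hκ10.trans hκ3
  have hε0 : 0 < ε := by
    rw [hε]
    exact div_pos (by linarith) (by positivity)
  have hεκ : (1 + ε) * κ₁ = κ₀ * (1 - ε * κ₁) := by
    rw [hε]
    field_simp
    ring
  obtain ⟨X1, hX1, hcmp⟩ := cmp_main (Module.finrank ℚ K : ℝ) A₁ W hd hA₁ hW0 ε hε0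
  refine ⟨F, ?_, max κ Kp, min η 1, max (max X0 X1) (max c₁ (max 2 Xp)), le_max_of_le_left hκ',
    lt_min hη one_pos, le_max_of_le_left (le_max_of_le_left hX0), ?_⟩
  · intro q χ hq hqN hχ
    exact hF q χ hq ((W388.coprime_rad hN0 q).mpr hqN) hχ
  · intro X Y T a1 a2 a3 a4 a5
    have hXX0 : X0 ≤ (X : ℝ) := ((le_max_left _ _).trans (le_max_left _ _)).trans a1
    have hXX1 : X1 ≤ (X : ℝ) := ((le_max_right _ _).trans (le_max_left _ _)).trans a1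
    have hXc : c₁ ≤ (X : ℝ) := ((le_max_left _ _).trans (le_max_right _ _)).trans a1
    have hX2 : (2 : ℝ) ≤ (X : ℝ) := (((le_max_left _ _).trans (le_max_right _ _)).trans
      (le_max_right _ _)).trans a1
    have hXXp : Xp ≤ (X : ℝ) := (((le_max_right _ _).trans (le_max_right _ _)).trans
      (le_max_right _ _)).trans a1
    have hX0' : (0 : ℝ) ≤ (X : ℝ) := by linarith
    have a2' : κ * X ≤ Y := (mul_le_mul_of_nonneg_right (le_max_left _ _) hX0').trans a2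
    have a2p : Kp * X ≤ Y := (mul_le_mul_of_nonneg_right (le_max_right _ _) hX0').trans a2
    have hX1' : (1 : ℝ) ≤ (X : ℝ) := by linarith
    have a3' : (Y : ℝ) ≤ (X : ℝ) ^ (1 + η) := a3.trans
      (Real.rpow_le_rpow_of_exponent_le hX1' (by linarith [min_le_left η 1]))
    have a5' : T ≤ (X : ℝ) ^ η := a5.trans
      (Real.rpow_le_rpow_of_exponent_le hX1' (min_le_left _ _))
    have hY2 : (Y : ℝ) ≤ (X : ℝ) ^ 2 := by
      refine a3.trans ?_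
      have := Real.rpow_le_rpow_of_exponent_le hX1' (show 1 + min η 1 ≤ ((2 : ℕ) : ℝ) by
        push_cast
        linarith [min_le_right η 1])
      rwa [Real.rpow_natCast] at this
    have hTX : T ≤ (X : ℝ) := by
      have := a5.trans (Real.rpow_le_rpow_of_exponent_le hX1' (min_le_right η 1))
      rwa [Real.rpow_one] at this
    have b1 := hfin X Y T hXX0 a2' a3' a4 a5'
    have b0 := hpos X Y T hXXp a2p hY2 a4 hTX
    -- comparison
    have hc : ∀ (q : ℕ) (χ : DirichletCharacter ℂ q), X < q → q ≤ Y → Nat.Coprime q M →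
        χ.IsPrimitive →
        (NN (F q χ) T (2 * T) : ℝ) ≤ (1 + ε) * NN (G q χ) T (2 * T) ∧
        (Nh (G q χ) T (2 * T) : ℝ) ≤ Nh (F q χ) T (2 * T) + ε * NN (G q χ) T (2 * T) := by
      intro q χ hXq hqY hqM hχ
      have hX2n : 2 ≤ X := by exact_mod_cast hX2
      have hq2 : 2 ≤ q := by omega
      obtain ⟨h1, h2⟩ := hF q χ hq2 hqM hχ
      obtain ⟨⟨a, ha⟩, -⟩ := hgood q χ (F q χ) hq2 (htw q χ hq2 hχ hqM) h1 h2
      rw [hGq]
      have hqX : (X : ℝ) ≤ (q : ℝ) := by exact_mod_cast hXq.le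
      have hqYr : (q : ℝ) ≤ (Y : ℝ) := by exact_mod_cast hqY
      refine hcmp (X : ℝ) (c₁ * q) T (F q χ) a hXX1 ?_ ?_ a4 hTX ha
      · nlinarith
      · calc c₁ * (q : ℝ) ≤ X * (X : ℝ) ^ 2 := by
              refine mul_le_mul hXc (hqYr.trans hY2) (by positivity) (by positivity)
          _ = (X : ℝ) ^ 3 := by ring
    obtain ⟨SF, hSF⟩ : ∃ S : ℝ, S = primFamM M X Y (fun q χ => (NN (F q χ) T (2 * T) : ℝ)) :=
      ⟨_, rfl⟩
    obtain ⟨SG, hSG⟩ : ∃ S : ℝ, S = primFamM M X Y (fun q χ => (NN (G q χ) T (2 * T) : ℝ)) :=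
      ⟨_, rfl⟩
    have hSG0 : 0 ≤ SG := by
      rw [hSG]
      exact H385.primFamM_nonneg _ _ _ _ (fun _ _ => Nat.cast_nonneg _)
    have hSF0 : 0 ≤ SF := by
      rw [hSF]
      exact H385.primFamM_nonneg _ _ _ _ (fun _ _ => Nat.cast_nonneg _)
    have e1 : SF ≤ (1 + ε) * SG := by
      have h1 := H385.primFamM_mono M X Y (fun q χ => (NN (F q χ) T (2 * T) : ℝ))
        (fun q χ => (1 + ε) * (NN (G q χ) T (2 * T) : ℝ) - 0 * (NN (G q χ) T (2 * T) : ℝ))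
        (fun q χ h1 h2 h3 h4 => by
          rw [zero_mul, sub_zero]
          exact (hc q χ h1 h2 h3 h4).1)
      rw [H385.primFamM_lin, zero_mul, sub_zero, ← hSG, ← hSF] at h1
      exact h1
    have e2 : primFamM M X Y (fun q χ => (Nh (G q χ) T (2 * T) : ℝ)) - ε * SG ≤
        primFamM M X Y (fun q χ => (Nh (F q χ) T (2 * T) : ℝ)) := by
      have h1 := H385.primFamM_mono M X Y
        (fun q χ => 1 * (Nh (G q χ) T (2 * T) : ℝ) - ε * (NN (G q χ) T (2 * T) : ℝ))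
        (fun q χ => (Nh (F q χ) T (2 * T) : ℝ))
        (fun q χ h1 h2 h3 h4 => by
          have := (hc q χ h1 h2 h3 h4).2
          linarith)
      rwa [H385.primFamM_lin, one_mul, ← hSG] at h1
    rw [← hSG] at b0 b1
    obtain ⟨HF, hHF⟩ : ∃ S : ℝ, S = primFamM M X Y (fun q χ => (Nh (F q χ) T (2 * T) : ℝ)) :=
      ⟨_, rfl⟩
    obtain ⟨HG, hHG⟩ : ∃ S : ℝ, S = primFamM M X Y (fun q χ => (Nh (G q χ) T (2 * T) : ℝ)) :=
      ⟨_, rfl⟩
    rw [← hHF, ← hHG] at e2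
    rw [← hHG] at b1
    have h1 : SG ≤ κ₁ * (HF + ε * SG) :=
      b1.trans (mul_le_mul_of_nonneg_left (by linarith) hκ10.le)
    have h2 : (1 - ε * κ₁) * SG ≤ κ₁ * HF := by linarith
    have key0 : 0 < HF := by
      have h3 : 0 < κ₀ * (1 - ε * κ₁) := by
        rw [← hεκ]
        positivity
      have h4 : 0 < 1 - ε * κ₁ := (pos_iff_pos_of_mul_pos h3).1 hκ00
      have h5 : 0 < κ₁ * HF := (mul_pos h4 b0).trans_le h2
      exact (pos_iff_pos_of_mul_pos h5).1 hκ10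
    have key : SF ≤ κ₀ * HF := by
      have h3 : κ₀ * ((1 - ε * κ₁) * SG) ≤ κ₀ * (κ₁ * HF) :=
        mul_le_mul_of_nonneg_left h2 hκ00.le
      have h4 : κ₁ * ((1 + ε) * SG) ≤ κ₁ * (κ₀ * HF) := by
        calc κ₁ * ((1 + ε) * SG) = (1 + ε) * κ₁ * SG := by ring
          _ = κ₀ * ((1 - ε * κ₁) * SG) := by rw [hεκ]; ring
          _ ≤ κ₀ * (κ₁ * HF) := h3
          _ = κ₁ * (κ₀ * HF) := by ring
      exact e1.trans (le_of_mul_le_mul_left h4 hκ10)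
    rw [hSF] at key
    rw [hHF] at key key0
    simp only [hM, W388.primFamM_rad hN0] at key key0
    exact ⟨key0, key⟩

/-- **Selberg orthonormality**, Galois totally real fields of any degree -/
theorem hi_galois (hG : IsGalois ℚ K) {𝔣 : Ideal (𝓞 K)} {ν : InfinitePlace K → ℝ}
    {ψ : Ideal (𝓞 K) →*₀ ℂ} (hψ : IsHecke K 𝔣 ν ψ) (hν : ∑ w, ν w = 0)
    (hne : ∀ σ : K ≃ₐ[ℚ] K, σ ≠ 1 → ∃ 𝔞 : Ideal (𝓞 K),
      Nat.Coprime (Ideal.absNorm 𝔞) (Ideal.absNorm 𝔣) ∧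
      ψ (𝔞.map (RingOfIntegers.mapRingEquiv (σ : K ≃+* K))) ≠ ψ 𝔞) : W388.SelE (cc ψ) := by
  have key : Pool.Agent.Y772.SL.SelData (cc ψ) := by
    refine sel_galois hG hν hψ.toIsHM fun σ hσ => ?_
    obtain ⟨𝔞, h1, h2⟩ := hne σ hσ
    exact ⟨𝔞, h1, by rw [Pool.Agent.Y772.SK.smul_eq_map]; exact h2⟩
  obtain ⟨A, hA, hDK⟩ := Pool.Agent.Y772.DK.t_dirK K
  exact key.selE (hDK ψ (Pool.Agent.Y772.HI.hm_norm_le hψ.toIsHM)).2.2.2.2.2.2.1

end Pool.Agent.JZ12.HD
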