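import Pool.Agent.JZ12.HD.CA

/-!
# The completed L-functions
-/

set_option autoImplicit false

open Complex Filter Topology Set
open H370 (NN Ns Nd zset mult)
open H385 (primFamM)
open Pool.Agent.Y767.CA (CD)

namespace Pool.Agent.JZ12.HD

variable {m : ℕ} (D : CD m)

lemma Nh_eq {q : ℕ} (χ : DirichletCharacter ℂ q) (hq : 2 ≤ q) {T1 T2 : ℝ} (hT : D.W ≤ T1) :
    Nh (D.Λ q χ) T1 T2 = Nh (D.F q χ) T1 T2 := by
  unfold Nh
  rw [D.zset_eq χ hq hT]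

/-- **Average multiplicity**, completed L-functions -/
theorem lam_fin (hm : 0 < m) (κ₀ : ℝ) (hκ : (m : ℝ) / 2 + 2 / (3 * m) < κ₀) :
    ∃ κ η X0 : ℝ, 1 ≤ κ ∧ 0 < η ∧ 1 ≤ X0 ∧
      ∀ (X Y : ℕ) (T : ℝ), X0 ≤ X → κ * X ≤ Y → (Y : ℝ) ≤ (X : ℝ) ^ (1 + η) →
        (Real.log X) ^ 2 ≤ T → T ≤ (X : ℝ) ^ η →
        0 < primFamM D.N X Y (fun q χ => (Nh (D.Λ q χ) T (2 * T) : ℝ)) ∧
        primFamM D.N X Y (fun q χ => (NN (D.Λ q χ) T (2 * T) : ℝ)) ≤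
          κ₀ * primFamM D.N X Y (fun q χ => (Nh (D.Λ q χ) T (2 * T) : ℝ)) := by
  obtain ⟨κ, η, X0, hκ', hη, hX0, h⟩ := ca_fin hm D κ₀ hκ
  refine ⟨κ, η, max X0 (Real.exp D.W), hκ', hη, le_max_of_le_left hX0,
    fun X Y T a1 a2 a3 a4 a5 => ?_⟩
  have hX : X0 ≤ X := (le_max_left _ _).trans a1
  have hXe : Real.exp D.W ≤ X := (le_max_right _ _).trans a1
  have hW := D.W_ge
  have hXpos : (0 : ℝ) < X := (Real.exp_pos _).trans_le hXe
  have hlog : D.W ≤ Real.log X := (Real.le_log_iff_exp_le hXpos).2 hXe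
  have hT : D.W ≤ T := by nlinarith
  have hX1 : 1 < (X : ℝ) := by
    have := Real.add_one_le_exp D.W
    linarith
  have hX1' : 1 < X := by exact_mod_cast hX1
  have key : ∀ (f g : (q : ℕ) → DirichletCharacter ℂ q → ℝ),
      (∀ (q : ℕ) (χ : DirichletCharacter ℂ q), 2 ≤ q → Nat.Coprime q D.N → χ.IsPrimitive →
        f q χ = g q χ) → primFamM D.N X Y f = primFamM D.N X Y g := by
    intro f g hfg
    unfold primFamM
    refine Finset.sum_congr rfl fun q hq => ?_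
    rw [Finset.mem_filter, Finset.mem_Ioc] at hq
    congr 1
    refine finsum_congr fun χ => ?_
    exact hfg q χ (by omega) hq.2 χ.2
  have e1 := key (fun q χ => (NN (D.Λ q χ) T (2 * T) : ℝ)) (fun q χ => (NN (D.F q χ) T (2 * T) : ℝ))
    (fun q χ h1 h2 h3 => by rw [D.NN_eq χ h1 h2 h3 hT])
  have e2 := key (fun q χ => (Nh (D.Λ q χ) T (2 * T) : ℝ)) (fun q χ => (Nh (D.F q χ) T (2 * T) : ℝ))
    (fun q χ h1 h2 h3 => by rw [Nh_eq D χ h1 hT])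
  rw [e1, e2]
  exact h X Y T hX a2 a3 a4 a5

end Pool.Agent.JZ12.HD
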